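import Pool.Agent.W_MP_36bef2_lc.Main

/-!
# The btte-degrees: every degree has at most countably many minimal covers
-/

namespace Pool.Agent.Results.MP_36bef2_lc.CountablyManyMinimalCovers

open Pool.Agent.W_MP_36bef2_lc

/-- Every btte-degree `a` has at most countably many minimal covers (degrees `b` with `a < b` and
nothing strictly between). For `a = zeroPrime`, the degree of the complement of the halting set,
this is the negative answer to the question. -/
theorem result (a : BtteDegree) : {b : BtteDegree | a ⋖ b}.Countable :=
  countable_minimal_covers a

/-- The special case of the question: the set of minimal covers of the degree `0'` of the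
complement of the halting set has cardinality strictly less than the continuum. -/
theorem zeroPrime_covers :
    Cardinal.mk {b : BtteDegree | zeroPrime ⋖ b} < Cardinal.continuum :=
  (Cardinal.mk_le_aleph0_iff.2 (result zeroPrime).to_subtype).trans_lt
    Cardinal.aleph0_lt_continuum

end Pool.Agent.Results.MP_36bef2_lc.CountablyManyMinimalCovers
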